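import Pool.Agent.Run7.h35.PS8.Easy
import Pool.Agent.Run7.h35.PS8.LET
import Pool.Agent.Run7.h35.PS8.RC
import Pool.Agent.Run7.h35.PS8.DIS
import Pool.Agent.Run7.h35.PS8.FIN
import Pool.Agent.Run7.h35.PS8.LONG
import Pool.Agent.Run7.h35.PS8.PSOF
import Pool.Agent.Run7.h35.PS8.MAIN0
import Pool.Agent.Run7.h35.PS8.GEO
import Pool.Agent.Run7.h35.PS8.SUBW
import Pool.Agent.Run7.h35.PS8.NORM
import Pool.Agent.Run7.h35.PS8.STRUCT
import Pool.Agent.Run7.h35.PS8.RUNS
import Pool.Agent.Run7.h35.PS8.J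
import Pool.Agent.Run7.h35.PS8.K
import Pool.Agent.Run7.h35.PS8.NONH
import Pool.Agent.Run7.h35.PS8.MET
import Pool.Agent.Run7.h35.PS8.STAR

/-!
# MP_8f0578_co, Q1: negative answer

Every `G`-invariant consistent path system on a Cayley graph of a finite group `G` satisfies
`Δ(P) ≤ C √|G|` with an absolute constant `C`; in particular there is no sequence with
`Δ(P_n) / √|G_n| → ∞`. Definitions: `Pool/Agent/Run7/h35/PS8/Stm.lean`.
-/

namespace Pool.Agent.Results.MP_8f0578_co.AtMostSquareRoot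

open Run7.h35.PS8 Filter

theorem fin : S_FIN := by
  have hRED : S_RED := Run7.h35.PS8.t_RED
  have hINJ : S_INJ := Run7.h35.PS8.t_INJ
  have hLET : S_LET := Run7.h35.PS8.t_LET
  have hKP : S_KP := Run7.h35.PS8.t_KP hINJ
  have hDIS : S_DIS := Run7.h35.PS8.t_DIS hLET hKP Run7.h35.PS8.t_RC
  have hLONG : S_LONG := Run7.h35.PS8.t_LONG hRED hDIS Run7.h437.PS8.t_STAR Run7.h64.PS8.t_STRUCT
  have hJ : S_J := Run7.h499.PS8.t_J hLET hKP
  have hK : S_K := Run7.h285.PS8.t_K hLET hINJ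
  have hNONH : S_NONH := Run7.h993.PS8.t_NONH hJ hK
  have hSUBW : S_SUBW := Run7.h73.PS8.subw.t_SUBW hLET hRED
  have hGEO : S_GEO := Run7.h73.PS8.t_GEO hLET hRED hSUBW
  have hMET : S_MET := Run7.h228.PS8.t_MET hLET Run7.h285.PS8.t_RUNS hGEO Run7.h285.PS8.t_NORM
  have hMAIN0 : S_MAIN0 := Run7.h35.PS8.t_MAIN0 hLONG hNONH hLET hMET
  exact Run7.h35.PS8.t_FIN hMAIN0 Run7.h35.PS8.t_PSOF Run7.h35.PS8.t_LEN

/-- There is an absolute constant `C` such that every `G`-invariant consistent path system `P` on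
a Cayley graph of a finite group `G` is `C √|G|`-metric and has `Δ(P) ≤ C √|G|`; and there is no
sequence of such systems with `Δ(P_n) / √|G_n| → ∞`. -/
theorem result :
    (∃ C : ℝ, 0 < C ∧ ∀ (G : Type) [Group G] [Fintype G] (S : Set G)
      (P : G → G → List G), IsCayleySystem S P →
        IsAlphaMetric P (C * √(Fintype.card G : ℝ)) ∧
        Delta P ≤ C * √(Fintype.card G : ℝ)) ∧
    ¬ ∃ (G : ℕ → Type) (_ : ∀ n, Group (G n)) (_ : ∀ n, Fintype (G n)) (S : ∀ n, Set (G n))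
      (P : ∀ n, G n → G n → List (G n)), (∀ n, IsCayleySystem (S n) (P n)) ∧
        Tendsto (fun n => Delta (P n) / √(Fintype.card (G n) : ℝ)) atTop atTop := by
  refine ⟨fin, ?_⟩
  rintro ⟨G, hG, hF, S, P, hS, hT⟩
  obtain ⟨C, hC, h⟩ := fin
  obtain ⟨n, hn⟩ := ((tendsto_atTop.mp hT) (C + 1)).exists
  have h1 := (h (G n) (S n) (P n) (hS n)).2
  have hpos : 0 < √(Fintype.card (G n) : ℝ) := by
    apply Real.sqrt_pos.mpr
    exact_mod_cast Fintype.card_pos
  have h2 : Delta (P n) / √(Fintype.card (G n) : ℝ) ≤ C := by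
    rw [div_le_iff₀ hpos]; exact h1
  linarith

end Pool.Agent.Results.MP_8f0578_co.AtMostSquareRoot
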